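import Pool.Agent.Helper35.HSF.StB

/-!
Project HSF (MP_925021_gt), module CPZ: the chord and normal curvatures form a compact set.

The normal curvatures are limits of chord curvatures (Taylor expansion of second order in a chart), and
every ultrafilter on the set of the chord curvatures converges to a chord or normal curvature; so the
set is the closure of the set of the chord curvatures and bounded.
-/

set_option autoImplicit false

namespace Helper14.HSF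

open Helper35.HSF Helper35.MS Helper35.PI Helper35.PI2 Helper32.CL
open scoped ContDiff Manifold Topology BigOperators
open MeasureTheory Set Filter

/-! ### The Taylor expansion -/

private lemma pt_dist {n : ℕ} {z₀ : EE n × ℝ} {a b : EE n} {t δ : ℝ} (ha : ‖a - z₀.1‖ < δ)
    (hb : ‖b - z₀.1‖ < δ) (ht : |t - z₀.2| < δ) {s : ℝ} (hs : s ∈ Icc (0 : ℝ) 1) :
    dist ((a + s • (b - a), t) : EE n × ℝ) z₀ < δ := by
  rw [Prod.dist_eq, max_lt_iff, dist_eq_norm, Real.dist_eq]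
  refine ⟨?_, ht⟩
  have h1 : a + s • (b - a) - z₀.1 = (1 - s) • (a - z₀.1) + s • (b - z₀.1) := by
    module
  have h2 : a + s • (b - a) ∈ Metric.ball z₀.1 δ := by
    have h3 : a + s • (b - a) = (1 - s) • a + s • b := by module
    rw [h3]
    exact convex_ball z₀.1 δ (by rwa [Metric.mem_ball, dist_eq_norm])
      (by rwa [Metric.mem_ball, dist_eq_norm]) (by linarith [hs.2]) hs.1 (by ring)
  rwa [Metric.mem_ball, dist_eq_norm] at h2

private lemma second_order {n N : ℕ} {f : EE n × ℝ → EE N} {z₀ : EE n × ℝ}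
    (hf : ContDiffAt ℝ ∞ f z₀) {ε : ℝ} (hε : 0 < ε) :
    ∃ δ > 0, ∀ (a b : EE n) (t : ℝ), ‖a - z₀.1‖ < δ → ‖b - z₀.1‖ < δ → |t - z₀.2| < δ →
      ‖f (b, t) - f (a, t) - fderiv ℝ f (a, t) (b - a, 0)
        - (1 / 2 : ℝ) • fderiv ℝ (fderiv ℝ f) z₀ (b - a, 0) (b - a, 0)‖ ≤ ε * ‖b - a‖ ^ 2 := by
  have h2le : (2 : WithTop ℕ∞) ≤ ∞ := by
    have : ((2 : ℕ∞) : WithTop ℕ∞) ≤ ((⊤ : ℕ∞) : WithTop ℕ∞) := WithTop.coe_le_coe.2 le_top
    exact this
  have hf2 : ContDiffAt ℝ 2 f z₀ := hf.of_le h2le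
  have hG : HasStrictFDerivAt (fderiv ℝ f) (fderiv ℝ (fderiv ℝ f) z₀) z₀ :=
    (hf2.fderiv_right (m := 1) (by norm_num)).hasStrictFDerivAt (by norm_num)
  have h1 : ∀ᶠ p : (EE n × ℝ) × (EE n × ℝ) in 𝓝 (z₀, z₀),
      ‖fderiv ℝ f p.1 - fderiv ℝ f p.2 - fderiv ℝ (fderiv ℝ f) z₀ (p.1 - p.2)‖
        ≤ ε * ‖p.1 - p.2‖ := hG.isLittleO.def hε
  have h2 : ∀ᶠ z in 𝓝 z₀, DifferentiableAt ℝ f z := by
    filter_upwards [hf2.eventually (by simp)] with z hz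
    exact hz.differentiableAt (by norm_num)
  obtain ⟨δ₁, hδ₁, hb₁⟩ := Metric.eventually_nhds_iff.1 h1
  obtain ⟨δ₂, hδ₂, hb₂⟩ := Metric.eventually_nhds_iff.1 h2
  refine ⟨min δ₁ δ₂, lt_min hδ₁ hδ₂, ?_⟩
  intro a b t ha hb ht
  set v := b - a with hv
  set G' := fderiv ℝ (fderiv ℝ f) z₀ with hG'
  have hd : ∀ s ∈ Icc (0 : ℝ) 1, dist ((a + s • v, t) : EE n × ℝ) z₀ < min δ₁ δ₂ :=
    fun s hs => pt_dist ha hb ht hs
  have key := norm_image_sub_le_of_norm_deriv_le_segment_01' (C := ε * ‖v‖ ^ 2)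
    (f := fun s : ℝ => f (a + s • v, t) - s • fderiv ℝ f (a, t) (v, 0)
      - (s ^ 2 / 2) • G' (v, 0) (v, 0))
    (f' := fun s => fderiv ℝ f (a + s • v, t) (v, 0) - fderiv ℝ f (a, t) (v, 0)
      - s • G' (v, 0) (v, 0)) ?_ ?_
  · simp only [one_smul, zero_smul, add_zero, sub_zero, one_pow] at key
    have h3 : a + v = b := by rw [hv]; abel
    rw [h3] at key
    refine le_trans (le_of_eq ?_) key
    congr 1
    simp only [ne_eq, OfNat.ofNat_ne_zero, not_false_eq_true, zero_pow, zero_div, zero_smul,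
      sub_zero]
    abel
  · intro s hs
    have e1 : HasFDerivAt f (fderiv ℝ f (a + s • v, t)) (a + s • v, t) :=
      (hb₂ (lt_of_lt_of_le (hd s hs) (min_le_right _ _))).hasFDerivAt
    have e2 : HasDerivAt (fun s : ℝ => ((a + s • v, t) : EE n × ℝ)) (v, 0) s := by
      have h4 : HasDerivAt (fun s : ℝ => a + s • v) v s := by
        have := ((hasDerivAt_id s).smul_const v).const_add a
        simpa using this
      exact h4.prodMk (hasDerivAt_const s t)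
    have e3 : HasDerivAt (fun s : ℝ => f (a + s • v, t)) (fderiv ℝ f (a + s • v, t) (v, 0)) s :=
      e1.comp_hasDerivAt s e2
    have e4 : HasDerivAt (fun s : ℝ => s • fderiv ℝ f (a, t) (v, 0))
        (fderiv ℝ f (a, t) (v, 0)) s := by
      have := (hasDerivAt_id s).smul_const (fderiv ℝ f (a, t) (v, 0))
      simpa using this
    have e5 : HasDerivAt (fun s : ℝ => (s ^ 2 / 2) • G' (v, 0) (v, 0))
        (s • G' (v, 0) (v, 0)) s := by
      have h5 : HasDerivAt (fun s : ℝ => s ^ 2 / 2) s s := by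
        have := (hasDerivAt_pow 2 s).div_const 2
        simpa using this
      exact h5.smul_const _
    exact ((e3.sub e4).sub e5).hasDerivWithinAt
  · intro s hs
    have hs' : s ∈ Icc (0 : ℝ) 1 := ⟨hs.1, hs.2.le⟩
    have h0 : (0 : ℝ) ∈ Icc (0 : ℝ) 1 := ⟨le_rfl, zero_le_one⟩
    have hz := hd s hs'
    have hz0 := hd 0 h0
    rw [zero_smul, add_zero] at hz0
    have h6 := hb₁ (y := ((a + s • v, t), (a, t))) (by
      rw [Prod.dist_eq, max_lt_iff]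
      exact ⟨lt_of_lt_of_le hz (min_le_left _ _), lt_of_lt_of_le hz0 (min_le_left _ _)⟩)
    have h7 : ((a + s • v, t) : EE n × ℝ) - (a, t) = s • ((v, 0) : EE n × ℝ) := by
      ext <;> simp
    simp only at h6
    rw [h7] at h6
    have h8 : fderiv ℝ f (a + s • v, t) (v, 0) - fderiv ℝ f (a, t) (v, 0)
        - s • G' (v, 0) (v, 0)
        = (fderiv ℝ f (a + s • v, t) - fderiv ℝ f (a, t) - G' (s • (v, 0))) (v, 0) := by
      simp only [map_smul, sub_apply, smul_apply]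
    rw [h8]
    have hvn : ‖((v, 0) : EE n × ℝ)‖ = ‖v‖ := by
      rw [Prod.norm_def]
      simp
    refine (ContinuousLinearMap.le_opNorm _ _).trans ?_
    rw [hvn]
    have h9 : ‖s • ((v, 0) : EE n × ℝ)‖ ≤ ‖v‖ := by
      rw [norm_smul, hvn, Real.norm_eq_abs, abs_of_nonneg hs.1]
      exact mul_le_of_le_one_left (norm_nonneg _) hs.2.le
    calc _ ≤ (ε * ‖s • ((v, 0) : EE n × ℝ)‖) * ‖v‖ :=
          mul_le_mul_of_nonneg_right h6 (norm_nonneg _)
      _ ≤ (ε * ‖v‖) * ‖v‖ := by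
          apply mul_le_mul_of_nonneg_right _ (norm_nonneg _)
          exact mul_le_mul_of_nonneg_left h9 hε.le
      _ = ε * ‖v‖ ^ 2 := by ring

private lemma first_order {n N : ℕ} {f : EE n × ℝ → EE N} {z₀ : EE n × ℝ}
    (hf : ContDiffAt ℝ ∞ f z₀) {ε : ℝ} (hε : 0 < ε) :
    ∃ δ > 0, ∀ (a b : EE n) (t : ℝ), ‖a - z₀.1‖ < δ → ‖b - z₀.1‖ < δ → |t - z₀.2| < δ →
      ‖f (b, t) - f (a, t) - fderiv ℝ f z₀ (b - a, 0)‖ ≤ ε * ‖b - a‖ := by
  have hG : HasStrictFDerivAt f (fderiv ℝ f z₀) z₀ := hf.hasStrictFDerivAt (by simp)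
  have h1 : ∀ᶠ p : (EE n × ℝ) × (EE n × ℝ) in 𝓝 (z₀, z₀),
      ‖f p.1 - f p.2 - fderiv ℝ f z₀ (p.1 - p.2)‖ ≤ ε * ‖p.1 - p.2‖ := hG.isLittleO.def hε
  obtain ⟨δ, hδ, hb⟩ := Metric.eventually_nhds_iff.1 h1
  refine ⟨δ, hδ, ?_⟩
  intro a b t ha hb' ht
  have h2 := hb (y := ((b, t), (a, t))) (by
    rw [Prod.dist_eq, max_lt_iff, Prod.dist_eq, max_lt_iff, Prod.dist_eq, max_lt_iff,
      dist_eq_norm, Real.dist_eq, dist_eq_norm]
    exact ⟨⟨hb', ht⟩, ha, ht⟩)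
  have h7 : ((b, t) : EE n × ℝ) - (a, t) = ((b - a, 0) : EE n × ℝ) := by
    ext <;> simp
  simp only at h2
  rw [h7] at h2
  have hvn : ‖((b - a, 0) : EE n × ℝ)‖ = ‖b - a‖ := by
    rw [Prod.norm_def]
    simp
  rwa [hvn] at h2

/-! ### Derivatives in a chart -/

private lemma pair_sum {n : ℕ} (w : EE n) :
    ((w, 0) : EE n × ℝ) = ∑ i, w i • ((ee i, 0) : EE n × ℝ) := by
  have h : w = ∑ i, w i • (ee i : EE n) := by
    ext j
    simp [ee, Pi.single_apply]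
  ext1
  · rw [Prod.fst_sum]
    simpa using h
  · rw [Prod.snd_sum]
    simp

private lemma bil_sum {n N : ℕ} (B : (EE n × ℝ) →L[ℝ] (EE n × ℝ) →L[ℝ] EE N) (w : EE n) :
    B (w, 0) (w, 0) = ∑ i, ∑ j, (w i * w j) • B (ee i, 0) (ee j, 0) := by
  have h1 : B (w, 0) = ∑ i, w i • B (ee i, 0) := by
    rw [pair_sum, map_sum]
    simp only [map_smul]
  rw [h1, sum_apply]
  refine Finset.sum_congr rfl fun i _ => ?_
  have h2 : B (ee i, 0) (w, 0) = ∑ j, w j • B (ee i, 0) (ee j, 0) := by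
    rw [pair_sum w, map_sum]
    simp only [map_smul]
  rw [smul_apply, h2, Finset.smul_sum]
  refine Finset.sum_congr rfl fun j _ => ?_
  rw [smul_smul]

private lemma dv1_eq {n N : ℕ} {f : EE n × ℝ → EE N} {a : EE n} {t : ℝ}
    (hf : DifferentiableAt ℝ f (a, t)) (w : EE n) :
    fderiv ℝ (fun y => f (y, t)) a w = fderiv ℝ f (a, t) (w, 0) := by
  have h : HasFDerivAt (fun y => f (y, t))
      ((fderiv ℝ f (a, t)).comp (ContinuousLinearMap.inl ℝ (EE n) ℝ)) a :=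
    HasFDerivAt.comp (f := fun y : EE n => ((y, t) : EE n × ℝ)) a hf.hasFDerivAt
      (hasFDerivAt_prodMk_left a t)
  rw [h.fderiv]
  rfl

private lemma dv2_eq {n N : ℕ} {f : EE n × ℝ → EE N} {a : EE n} {t : ℝ}
    (hf : ContDiffAt ℝ ∞ f (a, t)) (i j : Fin n) :
    dv2 (fun y => f (y, t)) a i j
      = fderiv ℝ (fderiv ℝ f) (a, t) (ee i, 0) (ee j, 0) := by
  unfold dv2
  have h2le : (2 : WithTop ℕ∞) ≤ ∞ := by
    have : ((2 : ℕ∞) : WithTop ℕ∞) ≤ ((⊤ : ℕ∞) : WithTop ℕ∞) := WithTop.coe_le_coe.2 le_top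
    exact this
  have hf2 : ContDiffAt ℝ 2 f (a, t) := hf.of_le h2le
  have h1 : ∀ᶠ z in 𝓝 ((a, t) : EE n × ℝ), DifferentiableAt ℝ f z := by
    filter_upwards [hf2.eventually (by simp)] with z hz
    exact hz.differentiableAt (by norm_num)
  have hc : ContinuousAt (fun y : EE n => ((y, t) : EE n × ℝ)) a := by fun_prop
  have h2 : (fun y => fderiv ℝ (fun y => f (y, t)) y (ee j))
      =ᶠ[𝓝 a] fun y => fderiv ℝ f (y, t) (ee j, 0) := by
    filter_upwards [hc.eventually h1] with y hy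
    exact dv1_eq hy (ee j)
  rw [h2.fderiv_eq]
  have hG : DifferentiableAt ℝ (fderiv ℝ f) (a, t) :=
    (hf2.fderiv_right (m := 1) (by norm_num)).differentiableAt (by norm_num)
  have h3 : HasFDerivAt (fun y => fderiv ℝ f (y, t))
      ((fderiv ℝ (fderiv ℝ f) (a, t)).comp (ContinuousLinearMap.inl ℝ (EE n) ℝ)) a :=
    HasFDerivAt.comp (f := fun y : EE n => ((y, t) : EE n × ℝ)) a hG.hasFDerivAt
      (hasFDerivAt_prodMk_left a t)
  have h4 : HasFDerivAt (fun y => fderiv ℝ f (y, t) (ee j, 0))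
      (((ContinuousLinearMap.apply ℝ (EE N) ((ee j, 0) : EE n × ℝ))).comp
        ((fderiv ℝ (fderiv ℝ f) (a, t)).comp (ContinuousLinearMap.inl ℝ (EE n) ℝ))) a :=
    ((ContinuousLinearMap.apply ℝ (EE N) ((ee j, 0) : EE n × ℝ)).hasFDerivAt).comp a h3
  rw [h4.fderiv]
  rfl

section Geo

variable {n : ℕ} {M : Type} [TopologicalSpace M] [ChartedSpace (EE n) M]
  [IsManifold (𝓡 n) ∞ M] {J : Set ℝ} {F ν : M → ℝ → EE (n + 2)}

/-- the flow in the preferred chart at `x₀` -/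
private noncomputable def fl {n : ℕ} {M : Type} [TopologicalSpace M] [ChartedSpace (EE n) M]
    (F : M → ℝ → EE (n + 2)) (x₀ : M) : EE n × ℝ → EE (n + 2) :=
  fun z => F ((chartAt (EE n) x₀).symm z.1) z.2

private lemma fl_smooth (hI2J : StI2J) (hH : HFl n J F ν) (x₀ : M) {a : EE n} {t : ℝ}
    (ha : a ∈ (chartAt (EE n) x₀).target) (ht : t ∈ J) :
    ContDiffAt ℝ ∞ (fl (n := n) F x₀) (a, t) :=
  (hI2J n (n + 2) M J F hH.mcf.toIsImmJ x₀).contDiffAt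
    (((chartAt (EE n) x₀).open_target.prod hH.mcf.toIsImmJ.op).mem_nhds ⟨ha, ht⟩)

private lemma perp (hI2J : StI2J) (hI3J : StI3J) (hH : HFl n J F ν) (x₀ : M) {x : M}
    (hx : x ∈ (chartAt (EE n) x₀).source) {t : ℝ} (ht : t ∈ J) (w : EE n) :
    (inner ℝ (fderiv ℝ (fl (n := n) F x₀) (chartAt (EE n) x₀ x, t) (w, 0)) (ν x t) : ℝ) = 0 := by
  apply hH.tν x t ht
  obtain ⟨-, -, -, -, h⟩ := hI3J n (n + 2) M J F hH.mcf.toIsImmJ x₀ x t ht hx
  rw [h, pair_sum, map_sum]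
  refine Submodule.sum_mem _ fun i _ => ?_
  rw [map_smul]
  refine Submodule.smul_mem _ _ (Submodule.subset_span ⟨i, ?_⟩)
  have hd := fl_smooth hI2J hH x₀ ((chartAt (EE n) x₀).map_source hx) ht
  exact dv1_eq (hd.differentiableAt (by simp)) (ee i)

private lemma gn_eq (hI2J : StI2J) (hH : HFl n J F ν) (x₀ : M) {t : ℝ} (ht : t ∈ J)
    (w : EE n) : gn F x₀ t (fun i => w i)
      = ‖fderiv ℝ (fl (n := n) F x₀) (chartAt (EE n) x₀ x₀, t) (w, 0)‖ ^ 2 := by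
  unfold gn tv
  rw [pair_sum, map_sum]
  congr 2
  refine Finset.sum_congr rfl fun i _ => ?_
  rw [map_smul]
  congr 1
  have hd := fl_smooth hI2J hH x₀
    ((chartAt (EE n) x₀).map_source (mem_chart_source (EE n) x₀)) ht
  exact dv1_eq (hd.differentiableAt (by simp)) (ee i)

private lemma hn_eq (hI2J : StI2J) (hH : HFl n J F ν) (x₀ : M) {t : ℝ}
    (ht : t ∈ J) (w : EE n) : hn F ν x₀ t (fun i => w i)
      = inner ℝ (fderiv ℝ (fderiv ℝ (fl (n := n) F x₀)) (chartAt (EE n) x₀ x₀, t)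
          (w, 0) (w, 0)) (ν x₀ t) := by
  have hx := mem_chart_source (EE n) x₀
  have hd := fl_smooth hI2J hH x₀ ((chartAt (EE n) x₀).map_source hx) ht
  have h1 : ∀ i j, (inner ℝ (sff (loc (n := n) F x₀ t) (chartAt (EE n) x₀ x₀) i j) (ν x₀ t) : ℝ)
      = inner ℝ (fderiv ℝ (fderiv ℝ (fl (n := n) F x₀)) (chartAt (EE n) x₀ x₀, t)
          (ee i, 0) (ee j, 0)) (ν x₀ t) := by
    intro i j
    rw [← dv2_eq hd i j]
    have h2 : ∀ l, (inner ℝ (dv1 (loc (n := n) F x₀ t) (chartAt (EE n) x₀ x₀) l) (ν x₀ t) : ℝ)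
        = 0 := by
      intro l
      exact hH.tν x₀ t ht _ (Submodule.subset_span ⟨l, rfl⟩)
    unfold sff nrm
    rw [inner_sub_left, sum_inner]
    simp only [sum_inner, inner_smul_left, h2, mul_zero, Finset.sum_const_zero, sub_zero]
    rfl
  unfold hn An
  rw [sum_inner]
  simp only [sum_inner, inner_smul_left, h1]
  rw [bil_sum, sum_inner]
  refine Finset.sum_congr rfl fun i _ => ?_
  rw [sum_inner]
  refine Finset.sum_congr rfl fun j _ => ?_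
  rw [inner_smul_left]

private lemma inj (hI2J : StI2J) (hH : HFl n J F ν) (x₀ : M) {t : ℝ} (ht : t ∈ J) {w : EE n}
    (hw : w ≠ 0) : fderiv ℝ (fl (n := n) F x₀) (chartAt (EE n) x₀ x₀, t) (w, 0) ≠ 0 := by
  intro h0
  apply hw
  have hd := fl_smooth hI2J hH x₀
    ((chartAt (EE n) x₀).map_source (mem_chart_source (EE n) x₀)) ht
  have h1 : ∑ i, w i • dv1 (loc (n := n) F x₀ t) (chartAt (EE n) x₀ x₀) i = 0 := by
    rw [← h0, pair_sum w, map_sum]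
    refine Finset.sum_congr rfl fun i _ => ?_
    rw [map_smul]
    congr 1
    exact dv1_eq (hd.differentiableAt (by simp)) (ee i)
  have h2 := Fintype.linearIndependent_iff.1 (hH.mcf.toIsImmJ.imm x₀ t ht) (fun i => w i) h1
  ext i
  simpa using h2 i

/-- the normal curvature in the direction `w` -/
private lemma mem_ZS (hI2J : StI2J) (hH : HFl n J F ν) (x₀ : M) {t : ℝ} (ht : t ∈ J) {w : EE n}
    (hw : w ≠ 0) :
    (inner ℝ (fderiv ℝ (fderiv ℝ (fl (n := n) F x₀)) (chartAt (EE n) x₀ x₀, t)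
      (w, 0) (w, 0)) (ν x₀ t) : ℝ)
      / ‖fderiv ℝ (fl (n := n) F x₀) (chartAt (EE n) x₀ x₀, t) (w, 0)‖ ^ 2
      ∈ ZS n F ν x₀ t := by
  right
  have hD := norm_ne_zero_iff.2 (inj hI2J hH x₀ ht hw)
  set r : ℝ := ‖fderiv ℝ (fl (n := n) F x₀) (chartAt (EE n) x₀ x₀, t) (w, 0)‖ with hr
  have hp : (((r⁻¹ • w : EE n), 0) : EE n × ℝ) = r⁻¹ • ((w, 0) : EE n × ℝ) := by
    ext <;> simp
  refine ⟨fun i => (r⁻¹ • w) i, ?_, ?_⟩
  · rw [gn_eq hI2J hH x₀ ht, hp, map_smul, norm_smul, ← hr, norm_inv, Real.norm_eq_abs,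
      abs_of_nonneg (norm_nonneg _), inv_mul_cancel₀ hD, one_pow]
  · rw [hn_eq hI2J hH x₀ ht, hp, map_smul, map_smul, smul_apply, inner_smul_left,
      inner_smul_left]
    simp only [conj_trivial]
    field_simp

/-- chord curvatures converge to a normal curvature -/
private lemma lim_zch {ι : Type} {l : Filter ι} (hI2J : StI2J) (hI3J : StI3J)
    (hH : HFl n J F ν) (x₀ : M) {t₀ : ℝ} (ht₀ : t₀ ∈ J) {X Y : ι → M} {T : ι → ℝ}
    (hX : Tendsto X l (𝓝 x₀)) (hY : Tendsto Y l (𝓝 x₀)) (hT : Tendsto T l (𝓝 t₀)) {c₀ : EE n}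
    (hc₀ : c₀ ≠ 0)
    (hne : ∀ᶠ i in l, chartAt (EE n) x₀ (Y i) ≠ chartAt (EE n) x₀ (X i))
    (hdir : Tendsto (fun i => ‖chartAt (EE n) x₀ (Y i) - chartAt (EE n) x₀ (X i)‖⁻¹ •
      (chartAt (EE n) x₀ (Y i) - chartAt (EE n) x₀ (X i))) l (𝓝 c₀)) :
    Tendsto (fun i => zch F ν (X i) (Y i) (T i)) l
      (𝓝 ((inner ℝ (fderiv ℝ (fderiv ℝ (fl (n := n) F x₀)) (chartAt (EE n) x₀ x₀, t₀)
        (c₀, 0) (c₀, 0)) (ν x₀ t₀) : ℝ)
        / ‖fderiv ℝ (fl (n := n) F x₀) (chartAt (EE n) x₀ x₀, t₀) (c₀, 0)‖ ^ 2)) := by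
  have hx := mem_chart_source (EE n) x₀
  have hd := fl_smooth hI2J hH x₀ ((chartAt (EE n) x₀).map_source hx) ht₀
  have hinj := inj hI2J hH x₀ ht₀ hc₀
  set e := chartAt (EE n) x₀ with he
  set f := fl (n := n) F x₀ with hf
  set a : ι → EE n := fun i => e (X i) with ha
  set b : ι → EE n := fun i => e (Y i) with hb
  set v : ι → EE n := fun i => b i - a i with hv
  set D₀ := fderiv ℝ f (e x₀, t₀) with hD₀
  set H₀ := fderiv ℝ (fderiv ℝ f) (e x₀, t₀) with hH₀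
  have hac : Tendsto a l (𝓝 (e x₀)) := (e.continuousAt hx).tendsto.comp hX
  have hbc : Tendsto b l (𝓝 (e x₀)) := (e.continuousAt hx).tendsto.comp hY
  have hclose : ∀ δ > 0, ∀ᶠ i in l, ‖a i - e x₀‖ < δ ∧ ‖b i - e x₀‖ < δ ∧ |T i - t₀| < δ := by
    intro δ hδ
    filter_upwards [hac.eventually (Metric.ball_mem_nhds _ hδ),
      hbc.eventually (Metric.ball_mem_nhds _ hδ), hT.eventually (Metric.ball_mem_nhds _ hδ)]
      with i h1 h2 h3
    rw [dist_eq_norm] at h1 h2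
    rw [Real.dist_eq] at h3
    exact ⟨h1, h2, h3⟩
  have hp : ∀ (r : ℝ) (u : EE n), (((r • u : EE n), 0) : EE n × ℝ) = r • ((u, 0) : EE n × ℝ) := by
    intro r u
    ext <;> simp
  -- second order
  have hN : Tendsto (fun i => (‖v i‖ ^ 2)⁻¹ • (f (b i, T i) - f (a i, T i)
      - fderiv ℝ f (a i, T i) (v i, 0))) l (𝓝 ((1 / 2 : ℝ) • H₀ (c₀, 0) (c₀, 0))) := by
    have h1 : Tendsto (fun i => (1 / 2 : ℝ) • H₀ (‖v i‖⁻¹ • v i, 0) (‖v i‖⁻¹ • v i, 0)) l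
        (𝓝 ((1 / 2 : ℝ) • H₀ (c₀, 0) (c₀, 0))) := by
      have hcont : Continuous (fun u : EE n => (1 / 2 : ℝ) • H₀ (u, 0) (u, 0)) := by
        fun_prop
      exact (hcont.tendsto c₀).comp hdir
    have h2 : Tendsto (fun i => (‖v i‖ ^ 2)⁻¹ • (f (b i, T i) - f (a i, T i)
        - fderiv ℝ f (a i, T i) (v i, 0))
        - (1 / 2 : ℝ) • H₀ (‖v i‖⁻¹ • v i, 0) (‖v i‖⁻¹ • v i, 0)) l (𝓝 0) := by
      rw [Metric.tendsto_nhds]
      intro ε hε
      obtain ⟨δ, hδ, hs⟩ := second_order hd (half_pos hε)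
      filter_upwards [hclose δ hδ, hne] with i hi hnei
      have hvi : ‖v i‖ ≠ 0 := by
        rw [norm_ne_zero_iff, hv]
        exact sub_ne_zero.2 hnei
      have hvp : 0 < ‖v i‖ := lt_of_le_of_ne (norm_nonneg _) (Ne.symm hvi)
      have h3 := hs (a i) (b i) (T i) hi.1 hi.2.1 hi.2.2
      have h4 : (‖v i‖ ^ 2)⁻¹ • (f (b i, T i) - f (a i, T i)
          - fderiv ℝ f (a i, T i) (v i, 0))
          - (1 / 2 : ℝ) • H₀ (‖v i‖⁻¹ • v i, 0) (‖v i‖⁻¹ • v i, 0)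
          = (‖v i‖ ^ 2)⁻¹ • (f (b i, T i) - f (a i, T i) - fderiv ℝ f (a i, T i) (b i - a i, 0)
            - (1 / 2 : ℝ) • H₀ (b i - a i, 0) (b i - a i, 0)) := by
        have h5 : b i - a i = v i := rfl
        rw [h5, hp, map_smul, map_smul, smul_apply]
        generalize f (b i, T i) - f (a i, T i) - fderiv ℝ f (a i, T i) (v i, 0) = A
        rw [smul_sub _ A]
        congr 1
        rw [smul_smul, smul_smul, smul_smul]
        congr 1
        field_simp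
      rw [dist_zero_right, h4, norm_smul, norm_inv, norm_pow, norm_norm]
      rw [inv_mul_lt_iff₀ (by positivity)]
      refine lt_of_le_of_lt h3 ?_
      have : 0 < ‖b i - a i‖ ^ 2 := by positivity
      have h5 : ‖v i‖ = ‖b i - a i‖ := rfl
      rw [h5]
      nlinarith
    have h6 := h2.add h1
    simp only [zero_add, sub_add_cancel] at h6
    exact h6
  -- first order
  have hE : Tendsto (fun i => ‖v i‖⁻¹ • (f (b i, T i) - f (a i, T i))) l (𝓝 (D₀ (c₀, 0))) := by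
    have h1 : Tendsto (fun i => D₀ (‖v i‖⁻¹ • v i, 0)) l (𝓝 (D₀ (c₀, 0))) := by
      have hcont : Continuous (fun u : EE n => D₀ (u, 0)) := by fun_prop
      exact (hcont.tendsto c₀).comp hdir
    have h2 : Tendsto (fun i => ‖v i‖⁻¹ • (f (b i, T i) - f (a i, T i))
        - D₀ (‖v i‖⁻¹ • v i, 0)) l (𝓝 0) := by
      rw [Metric.tendsto_nhds]
      intro ε hε
      obtain ⟨δ, hδ, hs⟩ := first_order hd (half_pos hε)
      filter_upwards [hclose δ hδ, hne] with i hi hnei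
      have hvi : ‖v i‖ ≠ 0 := by
        rw [norm_ne_zero_iff, hv]
        exact sub_ne_zero.2 hnei
      have hvp : 0 < ‖v i‖ := lt_of_le_of_ne (norm_nonneg _) (Ne.symm hvi)
      have h3 := hs (a i) (b i) (T i) hi.1 hi.2.1 hi.2.2
      have h4 : ‖v i‖⁻¹ • (f (b i, T i) - f (a i, T i)) - D₀ (‖v i‖⁻¹ • v i, 0)
          = ‖v i‖⁻¹ • (f (b i, T i) - f (a i, T i) - D₀ (b i - a i, 0)) := by
        rw [hp, map_smul, smul_sub _ _ (D₀ _)]
      rw [dist_zero_right, h4, norm_smul, norm_inv, norm_norm]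
      rw [inv_mul_lt_iff₀ hvp]
      refine lt_of_le_of_lt h3 ?_
      have h5 : ‖v i‖ = ‖b i - a i‖ := rfl
      rw [h5] at hvp ⊢
      nlinarith
    have h6 := h2.add h1
    simp only [zero_add, sub_add_cancel] at h6
    exact h6
  have hν : Tendsto (fun i => ν (X i) (T i)) l (𝓝 (ν x₀ t₀)) := by
    have h1 : ContinuousAt (fun z : M × ℝ => ν z.1 z.2) (x₀, t₀) :=
      hH.sν.continuousOn.continuousAt
        ((isOpen_univ.prod hH.mcf.toIsImmJ.op).mem_nhds ⟨mem_univ _, ht₀⟩)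
    exact h1.tendsto.comp (hX.prodMk_nhds hT)
  have hlim : Tendsto (fun i => 2 * (inner ℝ ((‖v i‖ ^ 2)⁻¹ • (f (b i, T i) - f (a i, T i)
      - fderiv ℝ f (a i, T i) (v i, 0))) (ν (X i) (T i)) : ℝ)
      / ‖‖v i‖⁻¹ • (f (b i, T i) - f (a i, T i))‖ ^ 2) l
      (𝓝 (2 * (inner ℝ ((1 / 2 : ℝ) • H₀ (c₀, 0) (c₀, 0)) (ν x₀ t₀) : ℝ)
        / ‖D₀ (c₀, 0)‖ ^ 2)) :=
    ((hN.inner hν).const_mul 2).div (hE.norm.pow 2) (pow_ne_zero 2 (norm_ne_zero_iff.2 hinj))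
  have hval : 2 * (inner ℝ ((1 / 2 : ℝ) • H₀ (c₀, 0) (c₀, 0)) (ν x₀ t₀) : ℝ)
      / ‖D₀ (c₀, 0)‖ ^ 2 = (inner ℝ (H₀ (c₀, 0) (c₀, 0)) (ν x₀ t₀) : ℝ) / ‖D₀ (c₀, 0)‖ ^ 2 := by
    rw [inner_smul_left]
    simp only [conj_trivial]
    ring
  rw [hval] at hlim
  refine hlim.congr' ?_
  filter_upwards [hne, hX.eventually (e.open_source.mem_nhds hx),
    hY.eventually (e.open_source.mem_nhds hx),
    hT.eventually (hH.mcf.toIsImmJ.op.mem_nhds ht₀)] with i hnei hXi hYi hTi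
  have hvi : ‖v i‖ ≠ 0 := by
    rw [norm_ne_zero_iff, hv]
    exact sub_ne_zero.2 hnei
  have hfa : f (a i, T i) = F (X i) (T i) := by
    rw [hf, ha]
    unfold fl
    simp only
    rw [e.left_inv hXi]
  have hfb : f (b i, T i) = F (Y i) (T i) := by
    rw [hf, hb]
    unfold fl
    simp only
    rw [e.left_inv hYi]
  have hpp := perp hI2J hI3J hH x₀ hXi hTi (v i)
  unfold zch
  rw [hfa, hfb, inner_smul_left, inner_sub_left]
  change 2 * (_ * (_ - inner ℝ (fderiv ℝ (fl F x₀) (chartAt (EE n) x₀ (X i), T i) (v i, 0))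
    (ν (X i) (T i)))) / _ = _
  rw [hpp, sub_zero, norm_smul, norm_inv, norm_norm]
  simp only [conj_trivial]
  rw [mul_pow, inv_pow]
  have h7 : ‖v i‖ ^ 2 ≠ 0 := pow_ne_zero 2 hvi
  by_cases h8 : ‖F (Y i) (T i) - F (X i) (T i)‖ ^ 2 = 0
  · rw [h8]
    simp
  · field_simp

/-- every ultrafilter on the chord curvatures converges -/
private lemma ultra [T2Space M] [CompactSpace M] (hI2J : StI2J) (hI3J : StI3J)
    (hH : HFl n J F ν) {t₁ t₂ : ℝ} (hJ : Icc t₁ t₂ ⊆ J)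
    (hi : ∀ t ∈ Icc t₁ t₂, Function.Injective (fun q => F q t))
    (U : Ultrafilter ((M × ℝ) × ℝ))
    (hU : {p : (M × ℝ) × ℝ | p.1.2 ∈ Icc t₁ t₂ ∧
      ∃ y, F y p.1.2 ≠ F p.1.1 p.1.2 ∧ p.2 = zch F ν p.1.1 y p.1.2} ∈ U) :
    ∃ p : (M × ℝ) × ℝ, (p.1.2 ∈ Icc t₁ t₂ ∧ p.2 ∈ ZS n F ν p.1.1 p.1.2) ∧
      (U : Filter ((M × ℝ) × ℝ)) ≤ 𝓝 p := by
  classical
  set S₁ := {p : (M × ℝ) × ℝ | p.1.2 ∈ Icc t₁ t₂ ∧
      ∃ y, F y p.1.2 ≠ F p.1.1 p.1.2 ∧ p.2 = zch F ν p.1.1 y p.1.2} with hS₁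
  set Y : (M × ℝ) × ℝ → M := fun p => if h : p ∈ S₁ then h.2.choose else p.1.1 with hYdef
  have hY : ∀ p ∈ S₁, F (Y p) p.1.2 ≠ F p.1.1 p.1.2 ∧ p.2 = zch F ν p.1.1 (Y p) p.1.2 := by
    intro p hp
    have h1 : Y p = hp.2.choose := by
      rw [hYdef]
      simp only [hp, dif_pos]
    rw [h1]
    exact hp.2.choose_spec
  have hUS : ∀ᶠ p in (U : Filter ((M × ℝ) × ℝ)), p ∈ S₁ := hU
  obtain ⟨x₀, -, hx₀⟩ := isCompact_univ.ultrafilter_le_nhds
    (U.map (fun p : (M × ℝ) × ℝ => p.1.1)) (by simp)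
  obtain ⟨y₀, -, hy₀⟩ := isCompact_univ.ultrafilter_le_nhds (U.map Y) (by simp)
  obtain ⟨t₀, ht₀, hct₀⟩ := (isCompact_Icc (a := t₁) (b := t₂)).ultrafilter_le_nhds
    (U.map (fun p : (M × ℝ) × ℝ => p.1.2)) (by
      rw [le_principal_iff]
      change ∀ᶠ p in (U : Filter ((M × ℝ) × ℝ)), p.1.2 ∈ Icc t₁ t₂
      filter_upwards [hUS] with p hp
      exact hp.1)
  have hX : Tendsto (fun p : (M × ℝ) × ℝ => p.1.1) U (𝓝 x₀) := hx₀
  have hYt : Tendsto Y U (𝓝 y₀) := hy₀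
  have hT : Tendsto (fun p : (M × ℝ) × ℝ => p.1.2) U (𝓝 t₀) := hct₀
  have htJ : t₀ ∈ J := hJ ht₀
  have fin : ∀ z₀, z₀ ∈ ZS n F ν x₀ t₀ →
      Tendsto (fun p : (M × ℝ) × ℝ => zch F ν p.1.1 (Y p) p.1.2) U (𝓝 z₀) →
      ∃ p : (M × ℝ) × ℝ, (p.1.2 ∈ Icc t₁ t₂ ∧ p.2 ∈ ZS n F ν p.1.1 p.1.2) ∧
        (U : Filter ((M × ℝ) × ℝ)) ≤ 𝓝 p := by
    intro z₀ hz₀ hlim
    refine ⟨((x₀, t₀), z₀), ⟨ht₀, hz₀⟩, ?_⟩
    have h1 : Tendsto (fun p : (M × ℝ) × ℝ => p.2) U (𝓝 z₀) := by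
      refine hlim.congr' ?_
      filter_upwards [hUS] with p hp
      exact (hY p hp).2.symm
    exact (hX.prodMk_nhds hT).prodMk_nhds h1
  by_cases hxy : y₀ = x₀
  · subst hxy
    have hx := mem_chart_source (EE n) y₀
    set e := chartAt (EE n) y₀ with he
    have hne : ∀ᶠ p in (U : Filter ((M × ℝ) × ℝ)), e (Y p) ≠ e p.1.1 := by
      filter_upwards [hUS, hX.eventually (e.open_source.mem_nhds hx),
        hYt.eventually (e.open_source.mem_nhds hx)] with p hp h1 h2 h3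
      exact (hY p hp).1 (by rw [e.injOn h2 h1 h3])
    obtain ⟨c₀, hc₀, hdir⟩ := (isCompact_sphere (0 : EE n) 1).ultrafilter_le_nhds
      (U.map (fun p : (M × ℝ) × ℝ => ‖e (Y p) - e p.1.1‖⁻¹ • (e (Y p) - e p.1.1))) (by
        rw [le_principal_iff]
        change ∀ᶠ p in (U : Filter ((M × ℝ) × ℝ)),
          ‖e (Y p) - e p.1.1‖⁻¹ • (e (Y p) - e p.1.1) ∈ Metric.sphere (0 : EE n) 1
        filter_upwards [hne] with p hp
        have h4 : ‖e (Y p) - e p.1.1‖ ≠ 0 := norm_ne_zero_iff.2 (sub_ne_zero.2 hp)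
        rw [mem_sphere_zero_iff_norm, norm_smul, norm_inv, norm_norm, inv_mul_cancel₀ h4])
    have hc₀' : c₀ ≠ 0 := by
      intro h
      rw [mem_sphere_zero_iff_norm, h, norm_zero] at hc₀
      exact zero_ne_one hc₀
    exact fin _ (mem_ZS hI2J hH y₀ htJ hc₀')
      (lim_zch hI2J hI3J hH y₀ htJ hX hYt hT hc₀' hne hdir)
  · have hFne : F y₀ t₀ ≠ F x₀ t₀ := fun h => hxy (hi t₀ ht₀ h)
    have hcF : ∀ x : M, ContinuousAt (fun z : M × ℝ => F z.1 z.2) (x, t₀) := fun x =>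
      hH.mcf.toIsImmJ.smooth.continuousOn.continuousAt
        ((isOpen_univ.prod hH.mcf.toIsImmJ.op).mem_nhds ⟨mem_univ _, htJ⟩)
    have hcν : ContinuousAt (fun z : M × ℝ => ν z.1 z.2) (x₀, t₀) :=
      hH.sν.continuousOn.continuousAt
        ((isOpen_univ.prod hH.mcf.toIsImmJ.op).mem_nhds ⟨mem_univ _, htJ⟩)
    have h1 : Tendsto (fun p : (M × ℝ) × ℝ => F p.1.1 p.1.2) U (𝓝 (F x₀ t₀)) :=
      (hcF x₀).tendsto.comp (hX.prodMk_nhds hT)
    have h2 : Tendsto (fun p : (M × ℝ) × ℝ => F (Y p) p.1.2) U (𝓝 (F y₀ t₀)) :=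
      (hcF y₀).tendsto.comp (hYt.prodMk_nhds hT)
    have h3 : Tendsto (fun p : (M × ℝ) × ℝ => ν p.1.1 p.1.2) U (𝓝 (ν x₀ t₀)) :=
      hcν.tendsto.comp (hX.prodMk_nhds hT)
    refine fin (zch F ν x₀ y₀ t₀) (Or.inl ⟨y₀, hFne, rfl⟩) ?_
    unfold zch
    exact (((h2.sub h1).inner h3).const_mul 2).div ((h2.sub h1).norm.pow 2)
      (pow_ne_zero 2 (norm_ne_zero_iff.2 (sub_ne_zero.2 hFne)))

/-- a normal curvature is a limit of chord curvatures -/
private lemma hn_lim (hI2J : StI2J) (hI3J : StI3J) (hH : HFl n J F ν) (x : M) {t : ℝ}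
    (ht : t ∈ J) (hi : Function.Injective (fun q => F q t)) (c : Fin n → ℝ)
    (hc : gn F x t c = 1) : ∃ Y : ℝ → M, (∀ᶠ s in 𝓝[>] (0 : ℝ), F (Y s) t ≠ F x t) ∧
      Tendsto (fun s => zch F ν x (Y s) t) (𝓝[>] 0) (𝓝 (hn F ν x t c)) := by
  have hx := mem_chart_source (EE n) x
  set e := chartAt (EE n) x with he
  set w : EE n := WithLp.toLp 2 c with hw
  have hwc : (fun i => w i) = c := rfl
  have hg := gn_eq hI2J hH x ht w
  have hh := hn_eq hI2J hH x ht w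
  rw [hwc] at hg hh
  rw [hc] at hg
  have hw0 : w ≠ 0 := by
    intro h0
    rw [h0] at hg
    have : (((0 : EE n), 0) : EE n × ℝ) = 0 := rfl
    rw [this, map_zero, norm_zero] at hg
    norm_num at hg
  have hwn : ‖w‖ ≠ 0 := norm_ne_zero_iff.2 hw0
  have hwp : 0 < ‖w‖ := lt_of_le_of_ne (norm_nonneg _) (Ne.symm hwn)
  have het : e x ∈ e.target := e.map_source hx
  have hc1 : Tendsto (fun s : ℝ => e x + s • w) (𝓝[>] 0) (𝓝 (e x)) := by
    have h1 : Continuous (fun s : ℝ => e x + s • w) := by fun_prop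
    have h2 := h1.tendsto 0
    rw [zero_smul, add_zero] at h2
    exact h2.mono_left nhdsWithin_le_nhds
  have hmem : ∀ᶠ s in 𝓝[>] (0 : ℝ), e x + s • w ∈ e.target :=
    hc1.eventually (e.open_target.mem_nhds het)
  have hYt : Tendsto (fun s : ℝ => e.symm (e x + s • w)) (𝓝[>] 0) (𝓝 x) := by
    have h1 := (e.continuousAt_symm het).tendsto
    rw [e.left_inv hx] at h1
    exact h1.comp hc1
  have hpos : ∀ᶠ s in 𝓝[>] (0 : ℝ), 0 < s := self_mem_nhdsWithin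
  have hne : ∀ᶠ s in 𝓝[>] (0 : ℝ), e (e.symm (e x + s • w)) ≠ e x := by
    filter_upwards [hmem, hpos] with s h1 h2 h3
    rw [e.right_inv h1] at h3
    have h4 : s • w = 0 := by simpa using h3
    rcases smul_eq_zero.1 h4 with h5 | h5
    · exact h2.ne' h5
    · exact hw0 h5
  refine ⟨fun s => e.symm (e x + s • w), ?_, ?_⟩
  · filter_upwards [hne] with s h1 h2
    exact h1 (by rw [hi h2])
  · have hdir : Tendsto (fun s : ℝ => ‖e (e.symm (e x + s • w)) - e x‖⁻¹ •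
        (e (e.symm (e x + s • w)) - e x)) (𝓝[>] 0) (𝓝 (‖w‖⁻¹ • w)) := by
      refine tendsto_const_nhds.congr' ?_
      filter_upwards [hmem, hpos] with s h1 h2
      rw [e.right_inv h1, add_sub_cancel_left, norm_smul, Real.norm_eq_abs, abs_of_pos h2,
        smul_smul]
      congr 1
      have := h2.ne'
      field_simp
    have h6 := lim_zch (X := fun _ => x) (T := fun _ => t) hI2J hI3J hH x ht
      tendsto_const_nhds hYt tendsto_const_nhds
      (smul_ne_zero (inv_ne_zero hwn) hw0) hne hdir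
    have hp : (((‖w‖⁻¹ • w : EE n), 0) : EE n × ℝ) = ‖w‖⁻¹ • ((w, 0) : EE n × ℝ) := by
      ext <;> simp
    rw [hp, map_smul, map_smul, map_smul, smul_apply, inner_smul_left, inner_smul_left,
      norm_smul, norm_inv, norm_norm, mul_pow, ← he] at h6
    rw [← hg, ← hh] at h6
    simp only [conj_trivial] at h6
    have h7 : ‖w‖⁻¹ * (‖w‖⁻¹ * hn F ν x t c) / (‖w‖⁻¹ ^ 2 * 1) = hn F ν x t c := by
      field_simp
    rw [h7] at h6
    exact h6

end Geo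

theorem hCPZ (hI2J : StI2J) (hI3J : StI3J) : StCPZ := by
  intro n M _ _ _ _ _ J F ν hH t₁ t₂ hJ hi
  set S : Set ((M × ℝ) × ℝ) := {p | p.1.2 ∈ Icc t₁ t₂ ∧ p.2 ∈ ZS n F ν p.1.1 p.1.2} with hS
  set S₁ : Set ((M × ℝ) × ℝ) := {p | p.1.2 ∈ Icc t₁ t₂ ∧
      ∃ y, F y p.1.2 ≠ F p.1.1 p.1.2 ∧ p.2 = zch F ν p.1.1 y p.1.2} with hS₁
  have hA := ultra hI2J hI3J hH hJ hi
  have h1 : S = closure S₁ := by
    apply Subset.antisymm
    · rintro ⟨⟨x, t⟩, z⟩ ⟨ht, hz⟩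
      simp only at ht hz
      rcases hz with ⟨y, hy, hzy⟩ | ⟨c, hc, hzc⟩
      · exact subset_closure ⟨ht, y, hy, hzy⟩
      · obtain ⟨Y, hY, hlim⟩ := hn_lim hI2J hI3J hH x (hJ ht) (hi t ht) c hc
        rw [← hzc] at hlim
        have h2 : Tendsto (fun s => (((x, t), zch F ν x (Y s) t) : (M × ℝ) × ℝ)) (𝓝[>] (0 : ℝ))
            (𝓝 ((x, t), z)) := tendsto_const_nhds.prodMk_nhds hlim
        refine mem_closure_of_tendsto h2 ?_
        filter_upwards [hY] with s hs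
        exact ⟨ht, Y s, hs, rfl⟩
    · intro p hp
      obtain ⟨U, hU, hUp⟩ := mem_closure_iff_ultrafilter.1 hp
      obtain ⟨p', hp', hUp'⟩ := hA U hU
      have h2 : p = p' := by
        have : (𝓝 p ⊓ 𝓝 p').NeBot := U.neBot.mono (le_inf hUp hUp')
        exact eq_of_nhds_neBot this
      rw [h2]
      exact hp'
  have h3 : ∃ C : ℝ, ∀ p ∈ S₁, |p.2| ≤ C := by
    by_contra hcon
    push Not at hcon
    have h4 : ∀ k : ℕ, ∃ p ∈ S₁, (k : ℝ) < |p.2| := fun k => hcon k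
    choose q hq1 hq2 using h4
    obtain ⟨p, -, hp⟩ := hA ((hyperfilter ℕ).map q) (by
      rw [Ultrafilter.mem_map]
      exact Filter.univ_mem' hq1)
    have h5 : Tendsto (fun k => |(q k).2|) (hyperfilter ℕ : Filter ℕ) (𝓝 |p.2|) := by
      have h6 : Tendsto q (hyperfilter ℕ : Filter ℕ) (𝓝 p) := hp
      have h7 : Continuous (fun p : (M × ℝ) × ℝ => |p.2|) := by fun_prop
      exact (h7.tendsto p).comp h6
    have h8 : Tendsto (fun k => |(q k).2|) (hyperfilter ℕ : Filter ℕ) atTop := by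
      have h9 : Tendsto (fun k => |(q k).2|) atTop atTop :=
        tendsto_atTop_mono (fun k => (hq2 k).le) tendsto_natCast_atTop_atTop
      exact h9.mono_left Nat.hyperfilter_le_atTop
    exact not_tendsto_nhds_of_tendsto_atTop h8 _ h5
  obtain ⟨C, hC⟩ := h3
  have hK : IsCompact ((univ ×ˢ Icc t₁ t₂) ×ˢ Icc (-C) C : Set ((M × ℝ) × ℝ)) :=
    (isCompact_univ.prod isCompact_Icc).prod isCompact_Icc
  rw [h1]
  refine hK.of_isClosed_subset isClosed_closure (closure_minimal ?_ hK.isClosed)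
  intro p hp
  exact ⟨⟨mem_univ _, hp.1⟩, abs_le.1 (hC p hp)⟩

end Helper14.HSF
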